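import Mathlib

set_option autoImplicit false

open Polynomial Filter Topology Set
open scoped Polynomial.Bivariate

namespace Pool.Agent.H.MP_85663e_an

theorem bezout (r q : ℝ[X][Y]) (hr : Irreducible r) (hq : ¬ r ∣ q) :
    ∃ (a b : ℝ[X][Y]) (c : ℝ[X]), c ≠ 0 ∧ a * r + b * q = C c := by
  by_cases h0 : r.natDegree = 0
  · refine ⟨1, 0, r.coeff 0, ?_, ?_⟩
    · intro h
      apply hr.ne_zero
      rw [eq_C_of_natDegree_eq_zero h0, h, C_0]
    · rw [one_mul, zero_mul, add_zero]; exact eq_C_of_natDegree_eq_zero h0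
  · have hp : r.IsPrimitive := hr.isPrimitive h0
    let K := FractionRing ℝ[X]
    have hi : Irreducible (r.map (algebraMap ℝ[X] K)) :=
      (hp.irreducible_iff_irreducible_map_fraction_map (K := K)).1 hr
    have hn : ¬ r.map (algebraMap ℝ[X] K) ∣ q.map (algebraMap ℝ[X] K) := fun h =>
      hq (hp.dvd_of_fraction_map_dvd_fraction_map h)
    obtain ⟨a, b, hab⟩ := (hi.coprime_iff_not_dvd).2 hn
    obtain ⟨s, hs0, hs⟩ := IsLocalization.integerNormalization_spec (nonZeroDivisors ℝ[X]) a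
    obtain ⟨t, ht0, ht⟩ := IsLocalization.integerNormalization_spec (nonZeroDivisors ℝ[X]) b
    refine ⟨C t * IsLocalization.integerNormalization (nonZeroDivisors ℝ[X]) a,
      C s * IsLocalization.integerNormalization (nonZeroDivisors ℝ[X]) b, s * t,
      mul_ne_zero (nonZeroDivisors.ne_zero hs0) (nonZeroDivisors.ne_zero ht0), ?_⟩
    apply Polynomial.map_injective (algebraMap ℝ[X] K) (IsFractionRing.injective _ _)
    simp only [Polynomial.map_add, Polynomial.map_mul, hs, ht, map_C, map_mul]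
    rw [Algebra.smul_def, Algebra.smul_def]
    simp only [Polynomial.algebraMap_apply]
    linear_combination (C (algebraMap ℝ[X] K s) * C (algebraMap ℝ[X] K t)) * hab

theorem ev_ne (c : ℝ[X]) (hc : c ≠ 0) : ∀ᶠ x in 𝓝[>] (0:ℝ), c.eval x ≠ 0 := by
  have hf : {x : ℝ | c.IsRoot x}.Finite := finite_setOfPred_isRoot hc
  have h1 : ∀ᶠ x in 𝓝[≠] (0:ℝ), x ∉ {x : ℝ | c.IsRoot x} := by
    have := (hf.isClosed.isOpen_compl)
    have h2 : ({x : ℝ | c.IsRoot x} \ {0}).Finite := hf.subset sdiff_subset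
    have h3 : ({x : ℝ | c.IsRoot x} \ {0})ᶜ ∈ 𝓝 (0:ℝ) :=
      h2.isClosed.isOpen_compl.mem_nhds (by simp)
    filter_upwards [mem_nhdsWithin_of_mem_nhds h3, self_mem_nhdsWithin] with x hx hx0 hr
    exact hx ⟨hr, hx0⟩
  exact h1.filter_mono (nhdsWithin_mono _ fun x hx => ne_of_gt hx)

theorem no_common (r q : ℝ[X][Y]) (hr : Irreducible r) (hq : ¬ r ∣ q) :
    ∀ᶠ x in 𝓝[>] (0:ℝ), ∀ y, r.evalEval x y = 0 → q.evalEval x y ≠ 0 := by
  obtain ⟨a, b, c, hc, h⟩ := bezout r q hr hq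
  filter_upwards [ev_ne c hc] with x hx y h1 h2
  have := congrArg (evalEval x y) h
  rw [evalEval_add, evalEval_mul, evalEval_mul, h1, h2, evalEval_C] at this
  exact hx (by simpa using this.symm)

theorem exists_dx (p : ℝ[X][Y]) : ∃ px : ℝ[X][Y], ∀ x y : ℝ,
    HasStrictFDerivAt (fun v : ℝ × ℝ => p.evalEval v.1 v.2)
      (px.evalEval x y • ContinuousLinearMap.fst ℝ ℝ ℝ +
        (derivative p).evalEval x y • ContinuousLinearMap.snd ℝ ℝ ℝ) (x, y) := by
  induction p using Polynomial.induction_on' with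
  | add p q hp hq =>
    obtain ⟨a, ha⟩ := hp
    obtain ⟨b, hb⟩ := hq
    refine ⟨a + b, fun x y => ?_⟩
    have := (ha x y).add (hb x y)
    have e : (fun v : ℝ × ℝ => (p + q).evalEval v.1 v.2) =
        (fun v : ℝ × ℝ => p.evalEval v.1 v.2) + fun v : ℝ × ℝ => q.evalEval v.1 v.2 := by
      funext v; simp [evalEval_add]
    rw [e]
    refine this.congr_fderiv ?_
    simp only [evalEval_add, derivative_add, add_smul]; abel
  | monomial n a =>
    refine ⟨monomial n (derivative a), fun x y => ?_⟩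
    have h1 : HasStrictFDerivAt (fun v : ℝ × ℝ => a.eval v.1)
        ((derivative a).eval x • ContinuousLinearMap.fst ℝ ℝ ℝ) (x, y) :=
      HasStrictDerivAt.comp_hasStrictFDerivAt (f := Prod.fst) (x, y) (a.hasStrictDerivAt x)
        (hasStrictFDerivAt_fst (𝕜 := ℝ) (p := (x, y)))
    have h2 : HasStrictFDerivAt (fun v : ℝ × ℝ => v.2 ^ n)
        (((n:ℝ) * y ^ (n - 1)) • ContinuousLinearMap.snd ℝ ℝ ℝ) (x, y) :=
      (hasStrictDerivAt_pow n y).comp_hasStrictFDerivAt (x, y) (hasStrictFDerivAt_snd (p := (x, y)))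
    have := h1.mul h2
    have e : (fun v : ℝ × ℝ => (monomial n a : ℝ[X][Y]).evalEval v.1 v.2) =
        (fun v : ℝ × ℝ => a.eval v.1) * fun v : ℝ × ℝ => v.2 ^ n := by
      funext v; simp [evalEval, eval_monomial]
    rw [e]
    refine this.congr_fderiv ?_
    ext <;> simp [evalEval, eval_monomial, derivative_monomial] <;> ring

theorem cont_ev (p : ℝ[X][Y]) : Continuous fun v : ℝ × ℝ => p.evalEval v.1 v.2 := by
  obtain ⟨px, h⟩ := exists_dx p
  exact continuous_iff_continuousAt.2 fun v => (h v.1 v.2).continuousAt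

theorem chain (p : ℝ[X][Y]) : ∃ px : ℝ[X][Y], ∀ (ψ : ℝ → ℝ) (d x : ℝ), HasDerivAt ψ d x →
    HasDerivAt (fun t => p.evalEval t (ψ t))
      (px.evalEval x (ψ x) + (derivative p).evalEval x (ψ x) * d) x := by
  obtain ⟨px, h⟩ := exists_dx p
  refine ⟨px, fun ψ d x hψ => ?_⟩
  have h2 : HasDerivAt (fun t => (t, ψ t)) (1, d) x := (hasDerivAt_id x).prodMk hψ
  have := (h x (ψ x)).hasFDerivAt.comp_hasDerivAt x h2
  refine HasDerivAt.congr_deriv this ?_
  simp

theorem local_branch (p : ℝ[X][Y]) (x y : ℝ) (h0 : p.evalEval x y = 0)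
    (h1 : (derivative p).evalEval x y ≠ 0) :
    ∃ φ : ℝ → ℝ, φ x = y ∧ DifferentiableAt ℝ φ x ∧ ∀ᶠ t in 𝓝 x, p.evalEval t (φ t) = 0 := by
  obtain ⟨px, h⟩ := exists_dx p
  have hinv : ((px.evalEval x y • ContinuousLinearMap.fst ℝ ℝ ℝ +
        (derivative p).evalEval x y • ContinuousLinearMap.snd ℝ ℝ ℝ) ∘L
        ContinuousLinearMap.inr ℝ ℝ ℝ).IsInvertible := by
    refine ⟨ContinuousLinearEquiv.unitsEquivAut ℝ (Units.mk0 _ h1), ?_⟩
    ext; simp
  refine ⟨(h x y).implicitFunctionOfProdDomain hinv, ?_, ?_, ?_⟩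
  · exact ((h x y).eventually_apply_eq_iff_implicitFunctionOfProdDomain hinv).self_of_nhds.1 rfl
  · exact ((h x y).hasStrictFDerivAt_implicitFunctionOfProdDomain hinv).hasFDerivAt.differentiableAt
  · filter_upwards [(h x y).eventually_apply_implicitFunctionOfProdDomain hinv] with t ht
    rw [ht, h0]

end Pool.Agent.H.MP_85663e_an
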