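import Mathlib

set_option autoImplicit false

open Filter Topology Set Asymptotics

namespace Pool.Agent.H.MP_85663e_an

theorem flat_iter {E : Type*} [NormedAddCommGroup E] [NormedSpace ℝ E] (m : ℕ) (F G : E → ℝ)
    (hF : ContDiff ℝ m F) (hG : ContDiff ℝ m G)
    (h : ∀ j : ℕ, j ≤ m → iteratedFDeriv ℝ j G 0 = iteratedFDeriv ℝ j F 0) (j : ℕ) :
    ∀ k, k + j = m → iteratedFDeriv ℝ k (G - F) =o[𝓝 0] fun z : E => ‖z‖ ^ j := by
  have hD : ContDiff ℝ m (G - F) := hG.sub hF
  have h0 : ∀ k ≤ m, iteratedFDeriv ℝ k (G - F) 0 = 0 := fun k hk => by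
    rw [iteratedFDeriv_sub_apply (hG.of_le (by exact_mod_cast hk)).contDiffAt
      (hF.of_le (by exact_mod_cast hk)).contDiffAt, h k hk, sub_self]
  induction j with
  | zero =>
    intro k hk
    simp only [pow_zero]
    rw [isLittleO_one_iff, ← h0 k (by omega)]
    exact (hD.continuous_iteratedFDeriv (by exact_mod_cast (by omega : k ≤ m))).tendsto 0
  | succ j ih =>
    intro k hk
    have h1 := ih (k + 1) (by omega)
    have hd := hD.differentiable_iteratedFDeriv (m := k) (by exact_mod_cast (by omega : k < m))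
    have h2 := (convex_univ (𝕜 := ℝ) (E := E)).isLittleO_pow_succ (x₀ := 0) (n := j)
      (f := iteratedFDeriv ℝ k (G - F)) (f' := fderiv ℝ (iteratedFDeriv ℝ k (G - F)))
      (mem_univ _) (fun x _ => (hd x).hasFDerivAt.hasFDerivWithinAt) (by
        rw [nhdsWithin_univ, ← isLittleO_norm_left]
        simp only [norm_fderiv_iteratedFDeriv, sub_zero]
        exact h1.norm_left)
    simpa [h0 k (by omega)] using h2

theorem flat0 {E : Type*} [NormedAddCommGroup E] [NormedSpace ℝ E] (m : ℕ) (F G : E → ℝ)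
    (hF : ContDiff ℝ m F) (hG : ContDiff ℝ m G)
    (h : ∀ j : ℕ, j ≤ m → iteratedFDeriv ℝ j G 0 = iteratedFDeriv ℝ j F 0) :
    (fun z => G z - F z) =o[𝓝 0] fun z : E => ‖z‖ ^ m := by
  have := (flat_iter m F G hF hG h m 0 (by simp)).norm_left
  simp only [norm_iteratedFDeriv_zero] at this
  exact isLittleO_norm_left.1 this

theorem flat1 {E : Type*} [NormedAddCommGroup E] [NormedSpace ℝ E] (m : ℕ) (F G : E → ℝ)
    (hF : ContDiff ℝ (m + 1 : ℕ) F) (hG : ContDiff ℝ (m + 1 : ℕ) G)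
    (h : ∀ j : ℕ, j ≤ m + 1 → iteratedFDeriv ℝ j G 0 = iteratedFDeriv ℝ j F 0) :
    fderiv ℝ (G - F) =o[𝓝 0] fun z : E => ‖z‖ ^ m := by
  have := (flat_iter (m + 1) F G hF hG h m 1 (by omega)).norm_left
  simp only [norm_iteratedFDeriv_one] at this
  exact isLittleO_norm_left.1 this

theorem glue (m : ℕ) (s : Set ℝ) (hs : IsOpen s) (H : ℕ → ℝ → ℝ)
    (hd : ∀ k ≤ m, ∀ x ∈ s, x ≠ 0 → HasDerivAt (H k) (H (k + 1) x) x)
    (h0 : ∀ k ≤ m, H k 0 = 0)
    (ho : ∀ k ≤ m, H k =o[𝓝[≠] 0] fun x => x ^ (m - k)) (j : ℕ) :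
    ∀ k, j + k = m → ContDiffOn ℝ j (H k) s := by
  induction j with
  | zero =>
    intro k hk
    rw [Nat.cast_zero, contDiffOn_zero]
    intro x hx
    refine ContinuousAt.continuousWithinAt ?_
    by_cases hx0 : x = 0
    · subst hx0
      rw [← continuousWithinAt_compl_self, ContinuousWithinAt, h0 k (by omega),
        ← isLittleO_one_iff ℝ]
      have := ho k (by omega)
      have e : m - k = 0 := by omega
      simpa [e] using this
    · exact (hd k (by omega) x hx hx0).continuousAt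
  | succ j ih =>
    intro k hk
    have hall : ∀ x ∈ s, HasDerivAt (H k) (H (k + 1) x) x := by
      intro x hx
      by_cases hx0 : x = 0
      · subst hx0
        rw [h0 (k + 1) (by omega), hasDerivAt_iff_isLittleO_nhds_zero]
        simp only [zero_add, h0 k (by omega), sub_zero, smul_zero]
        have h1 := ho k (by omega)
        have e : m - k = j + 1 := by omega
        rw [e] at h1
        have h2 : (fun x : ℝ => x ^ (j + 1)) =O[𝓝[≠] 0] fun x => x := by
          refine IsBigO.mono ?_ nhdsWithin_le_nhds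
          have : (fun x : ℝ => x ^ j) =O[𝓝 0] fun _ => (1:ℝ) :=
            ((continuous_pow j).tendsto 0).isBigO_one ℝ
          simpa [pow_succ] using this.mul (isBigO_refl (fun x : ℝ => x) (𝓝 0))
        have h3 := h1.trans_isBigO h2
        rw [← nhdsNE_sup_pure, isLittleO_sup]
        refine ⟨h3, IsLittleO.of_bound fun c _ => ?_⟩
        rw [eventually_pure, h0 k (by omega)]
        simp
      · exact hd k (by omega) x hx hx0
    rw [Nat.cast_succ, contDiffOn_succ_iff_deriv_of_isOpen hs]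
    refine ⟨fun x hx => (hall x hx).differentiableAt.differentiableWithinAt, by simp, ?_⟩
    exact (ih (k + 1) (by omega)).congr fun x hx => (hall x hx).deriv

noncomputable def cf : ℕ → ℝ × ℝ
  | 0 => (1, 0)
  | k + 1 => (((7 - k : ℕ) : ℝ) * (cf k).1 - (cf k).2, ((7 - k : ℕ) : ℝ) * (cf k).2 + (cf k).1)

theorem osc : ContDiff ℝ (6 : ℕ) fun x : ℝ => x ^ 7 * Real.sin (Real.log x) := by
  have := glue 6 univ isOpen_univ
    (fun k x => x ^ (7 - k) * ((cf k).1 * Real.sin (Real.log x) + (cf k).2 * Real.cos (Real.log x)))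
    ?_ ?_ ?_ 6 0 rfl
  · rw [contDiffOn_univ] at this
    simpa [cf] using this
  · intro k hk x _ hx
    have h1 := Real.hasDerivAt_log hx
    refine ((hasDerivAt_pow (7 - k) x).mul ((h1.sin.const_mul (cf k).1).add
      (h1.cos.const_mul (cf k).2))).congr_deriv ?_
    have e1 : 7 - k - 1 = 6 - k := by omega
    have e2 : 7 - (k + 1) = 6 - k := by omega
    have e3 : x ^ (7 - k) = x ^ (6 - k) * x := by
      rw [← pow_succ]; congr 1; omega
    simp only [cf, e1, e2, e3, Pi.add_apply]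
    field_simp
    ring
  · intro k hk
    have e : 7 - k = (6 - k) + 1 := by omega
    simp [e]
  · intro k hk
    have e : 7 - k = (6 - k) + 1 := by omega
    have h1 : (fun x : ℝ => x ^ (7 - k)) =o[𝓝[≠] 0] fun x => x ^ (6 - k) :=
      (isLittleO_pow_pow (by omega)).mono nhdsWithin_le_nhds
    have h2 : (fun x : ℝ => (cf k).1 * Real.sin (Real.log x) + (cf k).2 * Real.cos (Real.log x))
        =O[𝓝[≠] 0] fun _ => (1:ℝ) := by
      refine IsBigO.of_bound (|(cf k).1| + |(cf k).2|) (Eventually.of_forall fun x => ?_)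
      rw [Real.norm_eq_abs, norm_one, mul_one]
      refine (abs_add_le _ _).trans ?_
      rw [abs_mul, abs_mul]
      exact add_le_add (mul_le_of_le_one_right (abs_nonneg _) (Real.abs_sin_le_one _))
        (mul_le_of_le_one_right (abs_nonneg _) (Real.abs_cos_le_one _))
    simpa using h1.mul_isBigO h2

theorem two_sides (δ η : ℝ) (A B : ℕ → ℝ → ℝ)
    (hA : ∀ k, ∀ x ∈ Ioo 0 δ, HasDerivAt (A k) (A (k + 1) x) x)
    (hB : ∀ k, ∀ x ∈ Ioo 0 η, HasDerivAt (B k) (B (k + 1) x) x)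
    (oA : ∀ k ≤ 6, A k =o[𝓝[>] 0] fun x => x ^ (6 - k))
    (oB : ∀ k ≤ 6, B k =o[𝓝[>] 0] fun x => x ^ (6 - k)) :
    ∃ h : ℝ → ℝ, ContDiffOn ℝ (6 : ℕ) h (Ioo (-η) δ) ∧ h 0 = 0 ∧ (∀ x > 0, h x = A 0 x) ∧
      (∀ x < 0, h x = B 0 (-x)) ∧ h =o[𝓝[≠] 0] fun x => x ^ 6 := by
  set H : ℕ → ℝ → ℝ := fun k x => if 0 < x then A k x else if x < 0 then (-1) ^ k * B k (-x) else 0
    with hH
  have p1 : ∀ k, ∀ x > 0, H k x = A k x := fun k x hx => by simp only [hH]; rw [if_pos hx]
  have p2 : ∀ k, ∀ x < 0, H k x = (-1) ^ k * B k (-x) := fun k x hx => by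
    simp only [hH]; rw [if_neg (not_lt.2 hx.le), if_pos hx]
  have p0 : ∀ k, H k 0 = 0 := fun k => by simp [hH]
  have ho : ∀ k ≤ 6, H k =o[𝓝[≠] 0] fun x => x ^ (6 - k) := by
    intro k hk
    rw [← nhdsLT_sup_nhdsGT, isLittleO_sup]
    constructor
    · have t : Tendsto (fun x : ℝ => -x) (𝓝[<] 0) (𝓝[>] 0) := by
        simpa using (tendsto_neg_nhdsLT (a := (0:ℝ)))
      have h1 := ((oB k hk).comp_tendsto t).const_mul_left ((-1) ^ k)
      have h2 : ((fun x : ℝ => x ^ (6 - k)) ∘ fun x : ℝ => -x) =O[𝓝[<] 0]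
          fun x => x ^ (6 - k) := IsBigO.of_bound 1 (Eventually.of_forall fun x => by simp)
      refine (h1.trans_isBigO h2).congr' ?_ EventuallyEq.rfl
      filter_upwards [self_mem_nhdsWithin] with x hx using (p2 k x hx).symm
    · refine (oA k hk).congr' ?_ EventuallyEq.rfl
      filter_upwards [self_mem_nhdsWithin] with x hx using (p1 k x hx).symm
  refine ⟨H 0, glue 6 _ isOpen_Ioo H ?_ (fun k _ => p0 k) ho 6 0 rfl, p0 0, p1 0,
    fun x hx => by simp [p2 0 x hx], ho 0 (by norm_num)⟩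
  intro k _ x hx hx0
  rcases lt_or_gt_of_ne hx0 with h | h
  · have h1 := ((hB k (-x) ⟨by linarith, by linarith [hx.1]⟩).comp x
      (hasDerivAt_neg x)).const_mul ((-1:ℝ) ^ k)
    rw [p2 _ x h]
    refine (h1.congr_of_eventuallyEq ?_).congr_deriv (by ring)
    filter_upwards [Iio_mem_nhds h] with t ht using p2 k t ht
  · rw [p1 _ x h]
    refine (hA k x ⟨h, hx.2⟩).congr_of_eventuallyEq ?_
    filter_upwards [Ioi_mem_nhds h] with t ht using p1 k t ht

end Pool.Agent.H.MP_85663e_an
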