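import Mathlib
import Pool.Agent.H.MP_85663e_an.Alg

set_option autoImplicit false

open Polynomial Filter Topology Set Asymptotics
open scoped Polynomial.Bivariate

namespace Pool.Agent.H.MP_85663e_an

structure Br (r : ℝ[X][Y]) (ψ : ℝ → ℝ) (δ : ℝ) : Prop where
  irr : Irreducible r
  pos : 0 < δ
  zero : ∀ x ∈ Ioo 0 δ, r.evalEval x (ψ x) = 0
  der : ∀ x ∈ Ioo 0 δ, (derivative r).evalEval x (ψ x) ≠ 0
  dif : ∀ x ∈ Ioo 0 δ, DifferentiableAt ℝ ψ x

def Cl (r : ℝ[X][Y]) (ψ : ℝ → ℝ) (δ : ℝ) (g : ℝ → ℝ) : Prop :=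
  ∃ (N : ℝ[X][Y]) (k : ℕ), ∀ x ∈ Ioo 0 δ,
    g x = N.evalEval x (ψ x) * ((derivative r).evalEval x (ψ x))⁻¹ ^ k

variable {r : ℝ[X][Y]} {ψ : ℝ → ℝ} {δ : ℝ}

theorem Br.dpsi (h : Br r ψ δ) : ∃ rx : ℝ[X][Y], ∀ x ∈ Ioo 0 δ,
    HasDerivAt ψ (-rx.evalEval x (ψ x) * ((derivative r).evalEval x (ψ x))⁻¹) x := by
  obtain ⟨rx, hrx⟩ := chain r
  refine ⟨rx, fun x hx => ?_⟩
  have h1 := (h.dif x hx).hasDerivAt
  have h2 := hrx ψ _ x h1
  have h3 : HasDerivAt (fun t => r.evalEval t (ψ t)) 0 x := by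
    refine (hasDerivAt_const x (0:ℝ)).congr_of_eventuallyEq ?_
    filter_upwards [isOpen_Ioo.mem_nhds hx] with t ht using h.zero t ht
  have h4 := h2.unique h3
  refine h1.congr_deriv ?_
  have h5 := h.der x hx
  field_simp
  linarith

theorem Br.deriv (h : Br r ψ δ) {g : ℝ → ℝ} (hg : Cl r ψ δ g) :
    ∃ g', Cl r ψ δ g' ∧ ∀ x ∈ Ioo 0 δ, HasDerivAt g (g' x) x := by
  obtain ⟨rx, hrx⟩ := h.dpsi
  obtain ⟨N, k, hN⟩ := hg
  obtain ⟨Nx, hNx⟩ := chain N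
  obtain ⟨Dx, hDx⟩ := chain (derivative r)
  refine ⟨fun x => ((Nx * derivative r - derivative N * rx) * derivative r -
      (k : ℝ[X][Y]) * N * (Dx * derivative r - derivative (derivative r) * rx)).evalEval x (ψ x) *
      ((derivative r).evalEval x (ψ x))⁻¹ ^ (k + 2), ⟨_, _, fun x _ => rfl⟩, fun x hx => ?_⟩
  have h1 := hNx ψ _ x (hrx x hx)
  have h2 := ((hDx ψ _ x (hrx x hx)).inv (h.der x hx)).pow k
  have h3 := h1.mul h2
  have h4 : HasDerivAt g _ x := h3.congr_of_eventuallyEq (by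
    filter_upwards [isOpen_Ioo.mem_nhds hx] with t ht
    rw [hN t ht]; rfl)
  refine h4.congr_deriv ?_
  have h5 := h.der x hx
  simp only [evalEval_sub, evalEval_mul, evalEval_natCast, Pi.pow_apply, Pi.inv_apply]
  cases k with
  | zero => simp; field_simp; ring
  | succ k =>
    simp only [Nat.add_sub_cancel, pow_succ]
    generalize (evalEval x (ψ x) (derivative r))⁻¹ ^ k = w
    field_simp
    ring

theorem Br.sign (h : Br r ψ δ) {g : ℝ → ℝ} (hg : Cl r ψ δ g) (c : ℝ) (a : ℕ) :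
    (∀ᶠ x in 𝓝[>] (0:ℝ), g x ≤ c * x ^ a) ∨ (∀ᶠ x in 𝓝[>] (0:ℝ), c * x ^ a ≤ g x) := by
  obtain ⟨g', -, hg'⟩ := h.deriv hg
  obtain ⟨N, k, hN⟩ := hg
  set M : ℝ[X][Y] := N - C (C c * X ^ a) * derivative r ^ k with hM
  have e : ∀ x ∈ Ioo 0 δ, g x - c * x ^ a =
      M.evalEval x (ψ x) * ((derivative r).evalEval x (ψ x))⁻¹ ^ k := by
    intro x hx
    have h5 := h.der x hx
    rw [hN x hx, hM, evalEval_sub, evalEval_mul, evalEval_pow, evalEval_C]
    simp only [eval_mul, eval_C, eval_pow, eval_X, inv_pow]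
    field_simp
  by_cases hd : r ∣ M
  · left
    filter_upwards [Ioo_mem_nhdsGT h.pos] with x hx
    obtain ⟨s, hs⟩ := hd
    have := e x hx
    rw [hs, evalEval_mul, h.zero x hx] at this
    simp at this
    linarith
  · obtain ⟨η, hη0, hη⟩ := (nhdsGT_basis (0:ℝ)).eventually_iff.1
      ((no_common r M h.irr hd).and (Ioo_mem_nhdsGT h.pos))
    have hc : ContinuousOn (fun x => g x - c * x ^ a) (Ioo 0 η) := fun x hx =>
      ((hg' x (hη hx).2).continuousAt.sub (by fun_prop)).continuousWithinAt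
    have hsub : (fun x => g x - c * x ^ a) '' Ioo 0 η ⊆ Iio 0 ∪ Ioi 0 := by
      rintro _ ⟨x, hx, rfl⟩
      have h1 := (hη hx).1 _ (h.zero x (hη hx).2)
      have h2 : g x - c * x ^ a ≠ 0 := by
        rw [e x (hη hx).2]
        exact mul_ne_zero h1 (pow_ne_zero _ (inv_ne_zero (h.der x (hη hx).2)))
      exact lt_or_gt_of_ne h2
    rcases (isPreconnected_Ioo.image _ hc).subset_or_subset isOpen_Iio isOpen_Ioi
      (disjoint_left.2 fun t (h1 : t < 0) (h2 : 0 < t) => lt_asymm h1 h2) hsub with h1 | h1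
    · left
      filter_upwards [Ioo_mem_nhdsGT hη0] with x hx
      have : g x - c * x ^ a < 0 := h1 ⟨x, hx, rfl⟩
      linarith
    · right
      filter_upwards [Ioo_mem_nhdsGT hη0] with x hx
      have : 0 < g x - c * x ^ a := h1 ⟨x, hx, rfl⟩
      linarith

theorem Cl.neg {g : ℝ → ℝ} (hg : Cl r ψ δ g) : Cl r ψ δ (fun x => -g x) := by
  obtain ⟨N, k, hN⟩ := hg
  exact ⟨-N, k, fun x hx => by simp only [hN x hx, evalEval_neg]; ring⟩

theorem Br.upper (h : Br r ψ δ) {g g' : ℝ → ℝ} (hg' : Cl r ψ δ g')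
    (hd : ∀ x ∈ Ioo 0 δ, HasDerivAt g (g' x) x) (a : ℕ)
    (ho : g =o[𝓝[>] 0] fun x => x ^ (a + 1)) {ε : ℝ} (hε : 0 < ε) :
    ∀ᶠ x in 𝓝[>] (0:ℝ), g' x ≤ ε * x ^ a := by
  rcases h.sign hg' ε a with h1 | h1
  · exact h1
  exfalso
  obtain ⟨η, hη0, hη⟩ := (nhdsGT_basis (0:ℝ)).eventually_iff.1 (h1.and (Ioo_mem_nhdsGT h.pos))
  have ha : (0:ℝ) < (a:ℝ) + 1 := by positivity
  have hφ : ∀ x ∈ Ioo 0 η, HasDerivAt (fun t => g t - ε / (a + 1) * t ^ (a + 1))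
      (g' x - ε * x ^ a) x := by
    intro x hx
    refine ((hd x (hη hx).2).sub ((hasDerivAt_pow (a + 1) x).const_mul (ε / (a + 1)))).congr_deriv ?_
    simp only [Nat.add_sub_cancel]
    push_cast
    field_simp
  have hm : MonotoneOn (fun t => g t - ε / (a + 1) * t ^ (a + 1)) (Ioo 0 η) := by
    refine monotoneOn_of_deriv_nonneg (convex_Ioo _ _)
      (fun x hx => (hφ x hx).continuousAt.continuousWithinAt) ?_ ?_
    · rw [interior_Ioo]; exact fun x hx => (hφ x hx).differentiableAt.differentiableWithinAt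
    · rw [interior_Ioo]
      intro x hx
      rw [(hφ x hx).deriv]
      linarith [(hη hx).1]
  have hp : Tendsto (fun t : ℝ => t ^ (a + 1)) (𝓝[>] 0) (𝓝 0) := by
    have : Tendsto (fun t : ℝ => t ^ (a + 1)) (𝓝 0) (𝓝 (0 ^ (a + 1))) :=
      (continuous_pow (a + 1)).tendsto 0
    simpa using this.mono_left nhdsWithin_le_nhds
  have ht : Tendsto (fun t => g t - ε / (a + 1) * t ^ (a + 1)) (𝓝[>] 0) (𝓝 0) := by
    simpa using (ho.trans_tendsto hp).sub (hp.const_mul (ε / (a + 1)))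
  have hb := ho.def (c := ε / (a + 1) / 2) (by positivity)
  obtain ⟨x, hx1, hx2⟩ := (hb.and (Ioo_mem_nhdsGT hη0)).exists
  have h0 : 0 ≤ g x - ε / (a + 1) * x ^ (a + 1) := by
    refine le_of_tendsto ht ?_
    filter_upwards [Ioo_mem_nhdsGT hx2.1] with t htx
    exact hm ⟨htx.1, htx.2.trans hx2.2⟩ hx2 htx.2.le
  have hxp : 0 < x ^ (a + 1) := pow_pos hx2.1 _
  rw [Real.norm_eq_abs, Real.norm_eq_abs, abs_of_pos hxp] at hx1
  have h3 : 0 < ε / (a + 1) * x ^ (a + 1) := by positivity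
  have := le_abs_self (g x)
  linarith

theorem Br.step (h : Br r ψ δ) {g g' : ℝ → ℝ} (hg' : Cl r ψ δ g')
    (hd : ∀ x ∈ Ioo 0 δ, HasDerivAt g (g' x) x) (a : ℕ)
    (ho : g =o[𝓝[>] 0] fun x => x ^ (a + 1)) : g' =o[𝓝[>] 0] fun x => x ^ a := by
  refine IsLittleO.of_bound fun ε hε => ?_
  filter_upwards [h.upper hg' hd a ho hε,
    h.upper hg'.neg (fun x hx => (hd x hx).neg) a ho.neg_left hε, self_mem_nhdsWithin]
    with x h1 h2 hx
  have hxp : 0 < x ^ a := pow_pos hx _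
  rw [Real.norm_eq_abs, Real.norm_eq_abs, abs_of_pos hxp, abs_le]
  constructor <;> linarith

theorem Br.tower (h : Br r ψ δ) {g : ℝ → ℝ} (hg : Cl r ψ δ g) (m : ℕ)
    (ho : g =o[𝓝[>] 0] fun x => x ^ m) :
    ∃ H : ℕ → ℝ → ℝ, H 0 = g ∧ (∀ k, ∀ x ∈ Ioo 0 δ, HasDerivAt (H k) (H (k + 1) x) x) ∧
      ∀ k ≤ m, H k =o[𝓝[>] 0] fun x => x ^ (m - k) := by
  have hs : ∀ u : {u // Cl r ψ δ u}, ∃ v : {u // Cl r ψ δ u},
      ∀ x ∈ Ioo 0 δ, HasDerivAt u.1 (v.1 x) x := fun u => by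
    obtain ⟨v, h1, h2⟩ := h.deriv u.2
    exact ⟨⟨v, h1⟩, h2⟩
  choose D hD using hs
  refine ⟨fun k => (D^[k] ⟨g, hg⟩).1, rfl, fun k x hx => ?_, fun k => ?_⟩
  · simp only [Function.iterate_succ_apply']
    exact hD _ x hx
  · induction k with
    | zero => intro _; simpa using ho
    | succ k ih =>
      intro hk
      have h1 := ih (by omega)
      have e : m - k = (m - (k + 1)) + 1 := by omega
      rw [e] at h1
      simp only [Function.iterate_succ_apply']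
      exact h.step (D _).2 (hD _) _ h1

end Pool.Agent.H.MP_85663e_an
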