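import Mathlib
import Pool.Agent.H.MP_85663e_an.Hardy

set_option autoImplicit false

open Polynomial Filter Topology Set Asymptotics
open scoped Polynomial.Bivariate

namespace Pool.Agent.H.MP_85663e_an

theorem freq_factor (F : ℝ → ℝ → Prop) (l : Filter ℝ) (p : ℝ[X][Y]) (hp : p ≠ 0)
    (h : ∃ᶠ x in l, ∃ y, p.evalEval x y = 0 ∧ F x y) :
    ∃ r : ℝ[X][Y], Irreducible r ∧ r ∣ p ∧ ∃ᶠ x in l, ∃ y, r.evalEval x y = 0 ∧ F x y := by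
  induction p using WfDvdMonoid.induction_on_irreducible with
  | zero => exact absurd rfl hp
  | unit u hu =>
    obtain ⟨x, y, h1, -⟩ := h.exists
    obtain ⟨v, hv⟩ := hu.exists_right_inv
    have := congrArg (evalEval x y) hv
    rw [evalEval_mul, h1, evalEval_one] at this
    simp at this
  | mul a i ha hi ih =>
    have h2 : ∃ᶠ x in l, (∃ y, i.evalEval x y = 0 ∧ F x y) ∨ ∃ y, a.evalEval x y = 0 ∧ F x y := by
      refine h.mono ?_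
      rintro x ⟨y, h1, h2⟩
      rw [evalEval_mul, mul_eq_zero] at h1
      rcases h1 with h1 | h1
      · exact Or.inl ⟨y, h1, h2⟩
      · exact Or.inr ⟨y, h1, h2⟩
    rcases frequently_or_distrib.1 h2 with h3 | h3
    · exact ⟨i, hi, dvd_mul_right _ _, h3⟩
    · obtain ⟨r, h4, h5, h6⟩ := ih ha h3
      exact ⟨r, h4, h5.mul_left _, h6⟩

def W {ι : Type} (p : ι → ℝ[X][Y]) (Q : ι → Finset ℝ[X][Y]) (x y : ℝ) : Prop :=
  ∃ i, (p i).evalEval x y = 0 ∧ ∀ q ∈ Q i, 0 < q.evalEval x y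

theorem branch {ι : Type} [Finite ι] (p : ι → ℝ[X][Y]) (Q : ι → Finset ℝ[X][Y]) (d : ℝ)
    (hd : 0 < d) (hd2 : d < 1 / 2)
    (H1 : ∀ x ∈ Ioo 0 d, ∀ y, |y| < d → W p Q x y → |y| ≤ 2 * x ^ 2)
    (H2 : ∀ x ∈ Ioo 0 d, ∀ y z, |y| < d → |z| < d → W p Q x y → W p Q x z → y = z)
    (hf : ∃ᶠ x in 𝓝[>] (0:ℝ), ∃ y, |y| < d ∧ W p Q x y) :
    ∃ (r : ℝ[X][Y]) (ψ : ℝ → ℝ) (δ : ℝ), Br r ψ δ ∧ δ ≤ d ∧
      ∀ x ∈ Ioo 0 δ, W p Q x (ψ x) ∧ |ψ x| < d := by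
  obtain ⟨i, hi⟩ : ∃ i, ∃ᶠ x in 𝓝[>] (0:ℝ), ∃ y, (p i).evalEval x y = 0 ∧
      (|y| < d ∧ ∀ q ∈ Q i, 0 < q.evalEval x y) := by
    by_contra hc
    simp only [not_exists, not_frequently] at hc
    have := eventually_all.2 hc
    obtain ⟨x, ⟨y, h1, i, h2, h3⟩, h4⟩ := (hf.and_eventually this).exists
    exact h4 i y ⟨h2, h1, h3⟩
  have hsq : ∀ x ∈ Ioo 0 d, 2 * x ^ 2 < d := fun x hx => by nlinarith [hx.1, hx.2]
  have hp0 : p i ≠ 0 := by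
    intro h0
    obtain ⟨x, ⟨y, -, h1, h2⟩, hx⟩ := (hi.and_eventually (Ioo_mem_nhdsGT hd)).exists
    have e1 : ∀ᶠ z in 𝓝 y, |z| < d := continuous_abs.continuousAt.eventually_lt continuousAt_const h1
    have e2 : ∀ᶠ z in 𝓝 y, ∀ q ∈ Q i, 0 < q.evalEval x z := by
      rw [eventually_all_finset]
      intro q hq
      have hc : Continuous fun z : ℝ => q.evalEval x z :=
        (cont_ev q).comp (continuous_const.prodMk continuous_id)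
      exact continuousAt_const.eventually_lt hc.continuousAt (h2 q hq)
    have e3 : ∀ᶠ z in 𝓝[≠] y, (|z| < d ∧ ∀ q ∈ Q i, 0 < q.evalEval x z) ∧ z ≠ y :=
      ((e1.and e2).filter_mono nhdsWithin_le_nhds).and self_mem_nhdsWithin
    obtain ⟨z, ⟨h3, h4⟩, h5⟩ := e3.exists
    exact h5 (H2 x hx z y h3 h1 ⟨i, by simp [h0], h4⟩ ⟨i, by simp [h0], h2⟩)
  obtain ⟨r, hr, hrp, hfr⟩ := freq_factor _ _ _ hp0 hi
  have hW : ∀ x y, r.evalEval x y = 0 → (∀ q ∈ Q i, 0 < q.evalEval x y) → W p Q x y := by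
    intro x y h1 h2
    obtain ⟨s, hs⟩ := hrp
    exact ⟨i, by rw [hs, evalEval_mul, h1, zero_mul], h2⟩
  have hq : ∀ q ∈ Q i, ¬ r ∣ q := by
    rintro q hq ⟨s, hs⟩
    obtain ⟨x, y, h1, -, h2⟩ := hfr.exists
    have := h2 q hq
    rw [hs, evalEval_mul, h1, zero_mul] at this
    exact lt_irrefl _ this
  have hder : ¬ r ∣ derivative r := by
    intro hdv
    have h0 : r.natDegree = 0 := by
      by_contra h0
      have h1 := natDegree_derivative_lt h0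
      have h2 : derivative r ≠ 0 := fun h => h0 (derivative_eq_zero.1 h)
      exact absurd (natDegree_le_of_dvd hdv h2) (not_le.2 h1)
    have e := eq_C_of_natDegree_eq_zero h0
    have hc : r.coeff 0 ≠ 0 := fun h => hr.ne_zero (by rw [e, h, C_0])
    obtain ⟨x, ⟨y, h1, -⟩, h2⟩ := (hfr.and_eventually (ev_ne _ hc)).exists
    rw [e, evalEval_C] at h1
    exact h2 h1
  have e1 : ∀ᶠ x in 𝓝[>] (0:ℝ), ∀ q ∈ Q i, ∀ y, r.evalEval x y = 0 → q.evalEval x y ≠ 0 := by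
    rw [eventually_all_finset]
    exact fun q h => no_common r q hr (hq q h)
  obtain ⟨η, hη0, hη⟩ := (nhdsGT_basis (0:ℝ)).eventually_iff.1
    ((e1.and (no_common r _ hr hder)).and (Ioo_mem_nhdsGT hd))
  have hηd : η ≤ d := by
    by_contra hc
    exact lt_irrefl _ (hη (x := d) ⟨hd, not_le.1 hc⟩).2.2
  have loc : ∀ x ∈ Ioo 0 η, ∀ y, |y| ≤ 2 * x ^ 2 → r.evalEval x y = 0 →
      (∀ q ∈ Q i, 0 < q.evalEval x y) → ∃ φ : ℝ → ℝ, φ x = y ∧ DifferentiableAt ℝ φ x ∧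
        ∀ᶠ t in 𝓝 x, t ∈ Ioo 0 η ∧ |φ t| < d ∧ r.evalEval t (φ t) = 0 ∧
          ∀ q ∈ Q i, 0 < q.evalEval t (φ t) := by
    intro x hx y h1 h2 h3
    obtain ⟨φ, h4, h5, h6⟩ := local_branch r x y h2 ((hη hx).1.2 y h2)
    refine ⟨φ, h4, h5, ?_⟩
    have a1 : ∀ᶠ t in 𝓝 x, |φ t| < d :=
      h5.continuousAt.abs.eventually_lt continuousAt_const
        (by simp only [h4]; exact h1.trans_lt (hsq x (hη hx).2))
    have a2 : ∀ᶠ t in 𝓝 x, ∀ q ∈ Q i, 0 < q.evalEval t (φ t) := by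
      rw [eventually_all_finset]
      intro q hq
      have hc : ContinuousAt (fun t : ℝ => q.evalEval t (φ t)) x :=
        ContinuousAt.comp (f := fun t => (t, φ t)) (cont_ev q).continuousAt
          (continuousAt_id.prodMk h5.continuousAt)
      exact continuousAt_const.eventually_lt hc (by simp only [h4]; exact h3 q hq)
    filter_upwards [isOpen_Ioo.mem_nhds hx, a1, h6, a2] with t b1 b2 b3 b4 using ⟨b1, b2, b3, b4⟩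
  set u : Set ℝ := {x | x ∈ Ioo 0 η ∧ ∃ y, |y| ≤ 2 * x ^ 2 ∧ r.evalEval x y = 0 ∧
    ∀ q ∈ Q i, 0 < q.evalEval x y} with hu
  have huo : IsOpen u := by
    rw [isOpen_iff_mem_nhds]
    rintro x ⟨hx, y, h1, h2, h3⟩
    obtain ⟨φ, -, -, h6⟩ := loc x hx y h1 h2 h3
    filter_upwards [h6] with t ⟨b1, b2, b3, b4⟩
    exact ⟨b1, φ t, H1 t (hη b1).2 _ b2 (hW _ _ b3 b4), b3, b4⟩
  have hsub : Ioo 0 η ⊆ u := by
    refine isPreconnected_Ioo.subset_of_closure_inter_subset huo ?_ ?_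
    · obtain ⟨x, ⟨y, h1, h2, h3⟩, hx⟩ := (hfr.and_eventually (Ioo_mem_nhdsGT hη0)).exists
      exact ⟨x, hx, hx, y, H1 x (hη hx).2 y h2 (hW _ _ h1 h3), h1, h3⟩
    · rintro x ⟨hx1, hx⟩
      set K : Set (ℝ × ℝ) := (Icc 0 1 ×ˢ Icc (-1) 1) ∩ ({v | |v.2| ≤ 2 * v.1 ^ 2} ∩
        ({v | r.evalEval v.1 v.2 = 0} ∩ ⋂ q ∈ Q i, {v | 0 ≤ q.evalEval v.1 v.2})) with hK
      have hKc : IsCompact K := by
        refine (isCompact_Icc.prod isCompact_Icc).inter_right ?_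
        refine (isClosed_le (by fun_prop) (by fun_prop)).inter
          ((isClosed_eq (cont_ev r) continuous_const).inter ?_)
        exact isClosed_biInter fun q _ => isClosed_le continuous_const (cont_ev q)
      have h1 : u ⊆ Prod.fst '' K := by
        rintro t ⟨ht, y, b1, b2, b3⟩
        have b4 := hsq t (hη ht).2
        have b5 := abs_le.1 (b1.trans (by linarith : 2 * t ^ 2 ≤ 1))
        refine ⟨(t, y), ⟨⟨⟨ht.1.le, by linarith [(hη ht).2.2]⟩, b5⟩, b1, b2, ?_⟩, rfl⟩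
        exact mem_iInter₂.2 fun q hq => (b3 q hq).le
      obtain ⟨⟨t, y⟩, ⟨-, b1, b2, b3⟩, rfl⟩ :=
        closure_minimal h1 (hKc.image continuous_fst).isClosed hx1
      refine ⟨hx, y, b1, b2, fun q hq => lt_of_le_of_ne (mem_iInter₂.1 b3 q hq) ?_⟩
      exact ((hη hx).1.1 q hq y b2).symm
  have hex : ∀ x ∈ Ioo 0 η, ∃ y, |y| ≤ 2 * x ^ 2 ∧ r.evalEval x y = 0 ∧
    ∀ q ∈ Q i, 0 < q.evalEval x y := fun x hx => (hsub hx).2
  choose! ψ hψ1 hψ2 hψ3 using hex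
  refine ⟨r, ψ, η, ⟨hr, hη0, hψ2, fun x hx => (hη hx).1.2 _ (hψ2 x hx), fun x hx => ?_⟩, hηd,
    fun x hx => ⟨hW _ _ (hψ2 x hx) (hψ3 x hx), (hψ1 x hx).trans_lt (hsq x (hη hx).2)⟩⟩
  obtain ⟨φ, -, h5, h6⟩ := loc x hx _ (hψ1 x hx) (hψ2 x hx) (hψ3 x hx)
  refine h5.congr_of_eventuallyEq ?_
  filter_upwards [h6] with t ⟨b1, b2, b3, b4⟩
  exact H2 t (hη b1).2 _ _ ((hψ1 t b1).trans_lt (hsq t (hη b1).2)) b2
    (hW _ _ (hψ2 t b1) (hψ3 t b1)) (hW _ _ b3 b4)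

theorem side {ι : Type} [Finite ι] (p : ι → ℝ[X][Y]) (Q : ι → Finset ℝ[X][Y]) (d : ℝ)
    (hd : 0 < d) (hd2 : d < 1 / 2)
    (H1 : ∀ x ∈ Ioo 0 d, ∀ y, |y| < d → W p Q x y → |y| ≤ 2 * x ^ 2)
    (H2 : ∀ x ∈ Ioo 0 d, ∀ y z, |y| < d → |z| < d → W p Q x y → W p Q x z → y = z)
    (H3 : ∀ ε > 0, ∀ᶠ x in 𝓝[>] (0:ℝ), ∀ y, |y| ≤ 2 * x ^ 2 → W p Q x y →
      |y ^ 3 - x ^ 4 * y| ≤ ε * x ^ 6) :
    ∃ θ : ℝ, (θ = 0 ∨ θ = 1 ∨ θ = -1) ∧ ∀ θ' : ℝ, |θ'| ≤ 1 → ∃ δ > 0, ∃ H : ℕ → ℝ → ℝ,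
      (∀ k, ∀ x ∈ Ioo 0 δ, HasDerivAt (H k) (H (k + 1) x) x) ∧
      (∀ k ≤ 6, H k =o[𝓝[>] 0] fun x => x ^ (6 - k)) ∧
      ∀ x ∈ Ioo 0 δ, ∀ y, |y| < d → W p Q x y →
        x ^ 2 * (y - θ * x ^ 2) * (y - θ' * x ^ 2) = H 0 x := by
  by_cases hf : ∃ᶠ x in 𝓝[>] (0:ℝ), ∃ y, |y| < d ∧ W p Q x y
  swap
  · obtain ⟨η, hη0, hη⟩ := (nhdsGT_basis (0:ℝ)).eventually_iff.1 (not_frequently.1 hf)
    refine ⟨0, Or.inl rfl, fun θ' _ => ⟨η, hη0, fun _ _ => 0, fun k x _ => hasDerivAt_const _ _,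
      fun k _ => isLittleO_zero _ _, fun x hx y h1 h2 => absurd ⟨y, h1, h2⟩ (hη hx)⟩⟩
  obtain ⟨r, ψ, δ, hB, hδ, hψ⟩ := branch p Q d hd hd2 H1 H2 hf
  have hψc : Cl r ψ δ ψ := ⟨X, 0, fun x _ => by simp⟩
  have hb : ∀ x ∈ Ioo 0 δ, |ψ x| ≤ 2 * x ^ 2 := fun x hx =>
    H1 x ⟨hx.1, hx.2.trans_le hδ⟩ _ (hψ x hx).2 (hψ x hx).1
  obtain ⟨θ, hθ, hθ2⟩ : ∃ θ : ℝ, (θ = 0 ∨ θ = 1 ∨ θ = -1) ∧ ∀ᶠ x in 𝓝[>] (0:ℝ),
      |ψ x - θ * x ^ 2| * (x ^ 4 / 2) ≤ |ψ x ^ 3 - x ^ 4 * ψ x| := by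
    rcases hB.sign hψc (1 / 2) 2 with h1 | h1
    · rcases hB.sign hψc (-1 / 2) 2 with h2 | h2
      · refine ⟨-1, Or.inr (Or.inr rfl), ?_⟩
        filter_upwards [h2] with x hx
        have e : ψ x ^ 3 - x ^ 4 * ψ x = (ψ x - -1 * x ^ 2) * (ψ x * (ψ x - x ^ 2)) := by ring
        rw [e, abs_mul]
        refine mul_le_mul_of_nonneg_left (le_trans ?_ (le_abs_self _)) (abs_nonneg _)
        nlinarith [sq_nonneg x, sq_nonneg (x ^ 2), mul_nonneg (sub_nonneg.2 hx) (sq_nonneg x),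
          sq_nonneg (ψ x + 1 / 2 * x ^ 2)]
      · refine ⟨0, Or.inl rfl, ?_⟩
        filter_upwards [h1, h2] with x hx hx'
        have e : ψ x ^ 3 - x ^ 4 * ψ x = (ψ x - 0 * x ^ 2) * (ψ x ^ 2 - x ^ 4) := by ring
        rw [e, abs_mul]
        refine mul_le_mul_of_nonneg_left (le_trans ?_ (neg_le_abs _)) (abs_nonneg _)
        nlinarith [sq_nonneg (x ^ 2), mul_nonneg (sub_nonneg.2 hx) (sub_nonneg.2 hx')]
    · refine ⟨1, Or.inr (Or.inl rfl), ?_⟩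
      filter_upwards [h1] with x hx
      have e : ψ x ^ 3 - x ^ 4 * ψ x = (ψ x - 1 * x ^ 2) * (ψ x * (ψ x + x ^ 2)) := by ring
      rw [e, abs_mul]
      refine mul_le_mul_of_nonneg_left (le_trans ?_ (le_abs_self _)) (abs_nonneg _)
      nlinarith [sq_nonneg x, sq_nonneg (x ^ 2), mul_nonneg (sub_nonneg.2 hx) (sq_nonneg x),
        sq_nonneg (ψ x - 1 / 2 * x ^ 2)]
  refine ⟨θ, hθ, fun θ' hθ' => ?_⟩
  have hg : Cl r ψ δ (fun x => x ^ 2 * (ψ x - θ * x ^ 2) * (ψ x - θ' * x ^ 2)) :=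
    ⟨C (X ^ 2) * (X - C (C θ * X ^ 2)) * (X - C (C θ' * X ^ 2)), 0, fun x _ => by
      simp only [evalEval_mul, evalEval_sub, evalEval_C, evalEval_X]; simp⟩
  have ho : (fun x => x ^ 2 * (ψ x - θ * x ^ 2) * (ψ x - θ' * x ^ 2)) =o[𝓝[>] 0]
      fun x => x ^ 6 := by
    refine IsLittleO.of_bound fun ε hε => ?_
    filter_upwards [H3 (ε / 6) (by positivity), hθ2, Ioo_mem_nhdsGT hB.pos] with x h1 h2 hx
    have h3 := h2.trans (h1 _ (hb x hx) (hψ x hx).1)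
    have hx2 : 0 < x ^ 2 := pow_pos hx.1 2
    have h4 : |ψ x - θ * x ^ 2| ≤ ε / 3 * x ^ 2 := by
      refine le_of_mul_le_mul_right (a := x ^ 4 / 2) (h3.trans_eq (by ring)) ?_
      have := pow_pos hx.1 4
      positivity
    have h5 : |ψ x - θ' * x ^ 2| ≤ 3 * x ^ 2 := by
      refine (abs_sub _ _).trans ?_
      rw [abs_mul, abs_of_pos hx2]
      nlinarith [hb x hx]
    rw [Real.norm_eq_abs, Real.norm_eq_abs, abs_mul, abs_mul, abs_of_pos hx2,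
      abs_of_pos (pow_pos hx.1 6)]
    calc x ^ 2 * |ψ x - θ * x ^ 2| * |ψ x - θ' * x ^ 2|
        ≤ x ^ 2 * (ε / 3 * x ^ 2) * (3 * x ^ 2) := by gcongr
      _ = ε * x ^ 6 := by ring
  obtain ⟨H, h0, h1, h2⟩ := hB.tower hg 6 ho
  refine ⟨δ, hB.pos, H, h1, h2, fun x hx y hy hW => ?_⟩
  rw [h0, H2 x ⟨hx.1, hx.2.trans_le hδ⟩ y (ψ x) hy (hψ x hx).2 hW (hψ x hx).1]

end Pool.Agent.H.MP_85663e_an
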