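import Mathlib
import Pool.Agent.H.MP_85663e_an.Side
import Pool.Agent.H.MP_85663e_an.Flat

set_option autoImplicit false

open Polynomial Filter Topology Set Asymptotics
open scoped Polynomial.Bivariate

namespace Pool.Agent.H.MP_85663e_an

theorem nrm (x y : ℝ) : ‖(![x, y] : Fin 2 → ℝ)‖ = max |x| |y| := by
  apply le_antisymm
  · rw [pi_norm_le_iff_of_nonneg (by positivity), Fin.forall_fin_two]
    simp
  · exact max_le (by simpa using norm_le_pi_norm (![x, y] : Fin 2 → ℝ) 0)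
      (by simpa using norm_le_pi_norm (![x, y] : Fin 2 → ℝ) 1)

theorem nrm2 {x y : ℝ} (hx : |x| < 1 / 2) (hy : |y| ≤ 2 * x ^ 2) :
    ‖(![x, y] : Fin 2 → ℝ)‖ = |x| := by
  rw [nrm, max_eq_left]
  rw [← sq_abs x] at hy
  nlinarith [abs_nonneg x]

theorem ev_box {P : (Fin 2 → ℝ) → Prop} (h : ∀ᶠ z in 𝓝 (0 : Fin 2 → ℝ), P z) :
    ∃ d, 0 < d ∧ d < 1 / 2 ∧ ∀ x y : ℝ, |x| < d → |y| < d → P ![x, y] := by
  obtain ⟨e, he, h⟩ := Metric.eventually_nhds_iff.1 h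
  refine ⟨min e (1 / 4), by positivity, (min_le_right _ _).trans_lt (by norm_num),
    fun x y hx hy => h ?_⟩
  rw [dist_zero_right, nrm]
  exact max_lt (hx.trans_le (min_le_left _ _)) (hy.trans_le (min_le_left _ _))

noncomputable def F1 (z : Fin 2 → ℝ) : ℝ := z 1 * z 0 ^ 5 - z 0 ^ 7 * Real.sin (Real.log (z 0))

def F2 (z : Fin 2 → ℝ) : ℝ := z 1 ^ 3 - z 0 ^ 4 * z 1

theorem cF1 : ContDiff ℝ (6 : ℕ) F1 := by
  unfold F1
  exact ContDiff.sub (by fun_prop) (osc.comp (contDiff_apply ℝ ℝ (0 : Fin 2)))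

theorem cF2 : ContDiff ℝ (6 : ℕ) F2 := by
  unfold F2
  fun_prop

theorem core (V : Set (Fin 2 → ℝ)) (G1 G2 : (Fin 2 → ℝ) → ℝ) (c1 : Differentiable ℝ G1)
    (v1 : ∀ z ∈ V, G1 z = 0) (v2 : ∀ z ∈ V, G2 z = 0)
    (o1 : fderiv ℝ (G1 - F1) =o[𝓝 0] fun z => ‖z‖ ^ 5)
    (o2 : (fun z => G2 z - F2 z) =o[𝓝 0] fun z => ‖z‖ ^ 6) :
    ∃ d, 0 < d ∧ d < 1 / 2 ∧ (∀ x y, |x| < d → |y| < d → ![x, y] ∈ V → |y| ≤ 2 * x ^ 2) ∧
      (∀ x y z, x ≠ 0 → |x| < d → |y| < d → |z| < d → ![x, y] ∈ V → ![x, z] ∈ V → y = z) ∧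
      ∀ ε > 0, ∃ η > 0, ∀ x y, |x| < η → |y| ≤ 2 * x ^ 2 → ![x, y] ∈ V →
        |y ^ 3 - x ^ 4 * y| ≤ ε * x ^ 6 := by
  obtain ⟨d, hd, hd2, h⟩ := ev_box ((o1.def (c := 1 / 2) (by norm_num)).and
    (o2.def (c := 1 / 2) (by norm_num)))
  have A : ∀ x y, |x| < d → |y| < d → ![x, y] ∈ V → |y| ≤ 2 * x ^ 2 := by
    intro x y hx hy hv
    by_contra hc
    rw [not_le] at hc
    have h1 := (h x y hx hy).2
    rw [v2 _ hv, zero_sub, norm_neg, norm_pow, norm_norm, nrm, F2, Real.norm_eq_abs] at h1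
    simp only [Matrix.cons_val_one, Matrix.cons_val_zero] at h1
    have e : y ^ 3 - x ^ 4 * y = y * (y ^ 2 - x ^ 4) := by ring
    have hy0 : 0 < |y| := lt_of_le_of_lt (by positivity) hc
    have h2 : 3 / 4 * |y| ^ 2 ≤ y ^ 2 - x ^ 4 := by
      rw [← sq_abs y]; nlinarith [sq_nonneg x]
    have h3 : 3 / 4 * |y| ^ 3 ≤ |y ^ 3 - x ^ 4 * y| := by
      rw [e, abs_mul]
      nlinarith [le_abs_self (y ^ 2 - x ^ 4)]
    have h4 := h3.trans h1
    rcases le_total |x| |y| with h5 | h5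
    · rw [max_eq_right h5] at h4
      have h6 : |y| ^ 3 ≤ 1 := pow_le_one₀ hy0.le (by linarith)
      have h7 : 0 < |y| ^ 3 := pow_pos hy0 3
      nlinarith
    · rw [max_eq_left h5] at h4
      have h6 : (2 * x ^ 2) ^ 3 < |y| ^ 3 := pow_lt_pow_left₀ hc (by positivity) (by norm_num)
      have h7 : |x| ^ 6 = x ^ 6 := by rw [← abs_pow, abs_of_nonneg (by positivity)]
      have h8 : 0 ≤ x ^ 6 := by positivity
      nlinarith
  have B : ∀ x y z, x ≠ 0 → |x| < d → |y| < d → |z| < d → ![x, y] ∈ V → ![x, z] ∈ V →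
      ¬ y < z := by
    intro x y z hx0 hx hy hz hv1 hv2 hlt
    have hD : Differentiable ℝ (G1 - F1) := c1.sub (cF1.differentiable (by norm_num))
    have der : ∀ t : ℝ, HasDerivAt (fun t : ℝ => G1 ![x, t])
        (fderiv ℝ (G1 - F1) ![x, t] ![0, 1] + x ^ 5) t := by
      intro t
      have a1 : HasDerivAt (fun t : ℝ => (![x, t] : Fin 2 → ℝ)) ![0, 1] t := by
        rw [hasDerivAt_pi, Fin.forall_fin_two]
        exact ⟨by simpa using hasDerivAt_const t x, by simpa using hasDerivAt_id' t⟩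
      have a2 := (hD ![x, t]).hasFDerivAt.comp_hasDerivAt t a1
      have a3 : HasDerivAt (fun t : ℝ => t * x ^ 5 - x ^ 7 * Real.sin (Real.log x)) (x ^ 5) t := by
        simpa using ((hasDerivAt_id' t).mul_const (x ^ 5)).sub_const (x ^ 7 * Real.sin (Real.log x))
      refine (a2.add a3).congr_of_eventuallyEq (Eventually.of_forall fun s => ?_)
      simp [F1]
    obtain ⟨t, ht, ht0⟩ := exists_hasDerivAt_eq_zero hlt
      (fun t _ => (der t).continuousAt.continuousWithinAt) (by rw [v1 _ hv1, v1 _ hv2])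
      (fun t _ => der t)
    have b1 := abs_le.1 (A x y hx hy hv1)
    have b2 := abs_le.1 (A x z hx hz hv2)
    have b3 : |t| ≤ 2 * x ^ 2 := abs_le.2 ⟨by linarith [ht.1], by linarith [ht.2]⟩
    have b4 : |t| < d := abs_lt.2 ⟨by linarith [ht.1, (abs_lt.1 hy).1],
      by linarith [ht.2, (abs_lt.1 hz).2]⟩
    have h1 := (h x t hx b4).1
    rw [norm_pow, norm_norm, nrm2 (hx.trans hd2) b3] at h1
    have h2 := (fderiv ℝ (G1 - F1) ![x, t]).le_opNorm ![0, 1]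
    rw [nrm, eq_neg_of_add_eq_zero_left ht0, norm_neg, norm_pow, Real.norm_eq_abs] at h2
    simp only [abs_zero, abs_one, zero_le_one, max_eq_right, mul_one] at h2
    have h3 : 0 < |x| ^ 5 := pow_pos (abs_pos.2 hx0) 5
    linarith
  refine ⟨d, hd, hd2, A, fun x y z hx0 hx hy hz h1 h2 =>
    le_antisymm (not_lt.1 (B x z y hx0 hx hz hy h2 h1)) (not_lt.1 (B x y z hx0 hx hy hz h1 h2)),
    fun ε hε => ?_⟩
  obtain ⟨η, hη, hη2, h'⟩ := ev_box (o2.def hε)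
  refine ⟨η, hη, fun x y hx hy hv => ?_⟩
  have hy2 : |y| < η := by
    rw [← sq_abs x] at hy
    nlinarith [abs_nonneg x]
  have h1 := h' x y hx hy2
  rw [v2 _ hv, zero_sub, norm_neg, norm_pow, norm_norm, nrm2 (hx.trans hη2) hy, F2,
    Real.norm_eq_abs, ← abs_pow, abs_of_nonneg (by positivity : 0 ≤ x ^ 6)] at h1
  simpa using h1

noncomputable def T (σ : ℝ) : MvPolynomial (Fin 2) ℝ →ₐ[ℝ] ℝ[X][Y] :=
  MvPolynomial.aeval ![C (C σ * X), X]

theorem T_ev (σ x y : ℝ) (f : MvPolynomial (Fin 2) ℝ) :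
    (T σ f).evalEval x y = MvPolynomial.eval ![σ * x, y] f := by
  induction f using MvPolynomial.induction_on with
  | C a => simp [T, evalEval_C]
  | add p q hp hq => simp only [map_add, evalEval_add, hp, hq]
  | mul_X p i hp =>
    simp only [map_mul, evalEval_mul, hp]
    congr 1
    fin_cases i <;> simp [T, evalEval_C]

theorem side' {k : ℕ} (f : Fin k → MvPolynomial (Fin 2) ℝ)
    (g : Fin k → Finset (MvPolynomial (Fin 2) ℝ)) (V : Set (Fin 2 → ℝ))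
    (hV : V = ⋃ i : Fin k, {x : Fin 2 → ℝ | MvPolynomial.eval x (f i) = 0 ∧
      ∀ p ∈ g i, 0 < MvPolynomial.eval x p}) (σ : ℝ) (hσ : |σ| = 1) (d : ℝ)
    (hd : 0 < d) (hd2 : d < 1 / 2)
    (A : ∀ x y, |x| < d → |y| < d → ![x, y] ∈ V → |y| ≤ 2 * x ^ 2)
    (B : ∀ x y z, x ≠ 0 → |x| < d → |y| < d → |z| < d → ![x, y] ∈ V → ![x, z] ∈ V → y = z)
    (D : ∀ ε > 0, ∃ η > 0, ∀ x y, |x| < η → |y| ≤ 2 * x ^ 2 → ![x, y] ∈ V →
        |y ^ 3 - x ^ 4 * y| ≤ ε * x ^ 6) :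
    ∃ θ : ℝ, (θ = 0 ∨ θ = 1 ∨ θ = -1) ∧ ∀ θ' : ℝ, |θ'| ≤ 1 → ∃ δ > 0, ∃ H : ℕ → ℝ → ℝ,
      (∀ k, ∀ x ∈ Ioo 0 δ, HasDerivAt (H k) (H (k + 1) x) x) ∧
      (∀ k ≤ 6, H k =o[𝓝[>] 0] fun x => x ^ (6 - k)) ∧
      ∀ x ∈ Ioo 0 δ, ∀ y, |y| < d → ![σ * x, y] ∈ V →
        x ^ 2 * (y - θ * x ^ 2) * (y - θ' * x ^ 2) = H 0 x := by
  classical
  have hW : ∀ x y, W (fun i => T σ (f i)) (fun i => (g i).image (T σ)) x y ↔ ![σ * x, y] ∈ V := by
    intro x y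
    simp only [W, hV, mem_iUnion, mem_ofPred_eq, Finset.forall_mem_image, T_ev]
  have s2 : σ ^ 2 = 1 := by rw [← sq_abs, hσ, one_pow]
  have e2 : ∀ x, (σ * x) ^ 2 = x ^ 2 := fun x => by rw [mul_pow, s2, one_mul]
  have e4 : ∀ x, (σ * x) ^ 4 = x ^ 4 := fun x => by
    rw [show 4 = 2 * 2 from rfl, pow_mul, e2, ← pow_mul]
  have e6 : ∀ x, (σ * x) ^ 6 = x ^ 6 := fun x => by
    rw [show 6 = 2 * 3 from rfl, pow_mul, e2, ← pow_mul]
  have ea : ∀ x, 0 < x → |σ * x| = x := fun x hx => by rw [abs_mul, hσ, one_mul, abs_of_pos hx]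
  have := side (fun i => T σ (f i)) (fun i => (g i).image (T σ)) d hd hd2 ?_ ?_ ?_
  · simpa only [hW] using this
  · intro x hx y hy h
    rw [← e2]
    exact A _ _ (by rw [ea x hx.1]; exact hx.2) hy ((hW _ _).1 h)
  · intro x hx y z hy hz h1 h2
    exact B (σ * x) y z (abs_pos.1 (by rw [ea x hx.1]; exact hx.1))
      (by rw [ea x hx.1]; exact hx.2) hy hz ((hW _ _).1 h1) ((hW _ _).1 h2)
  · intro ε hε
    obtain ⟨η, hη, h⟩ := D ε hε
    filter_upwards [Ioo_mem_nhdsGT hη] with x hx y hy h1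
    rw [← e4, ← e6]
    exact h _ _ (by rw [ea x hx.1]; exact hx.2) (by rw [e2]; exact hy) ((hW _ _).1 h1)

def EE : Set (Fin 2 → ℝ) :=
  {z | z 1 = z 0 ^ 2 * Real.sin (Real.log (z 0)) ∧ z 1 ^ 3 = z 0 ^ 4 * z 1}

theorem EE_closed : IsClosed EE := by
  have h1 : Continuous fun x : ℝ => x ^ 2 * Real.sin (Real.log x) := by
    rw [continuous_iff_continuousAt]
    intro x
    by_cases hx : x = 0
    · subst hx
      have : Tendsto (fun x : ℝ => x ^ 2) (𝓝 0) (𝓝 0) := (continuous_pow 2).tendsto' 0 0 (by simp)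
      have h2 := this.zero_mul_isBoundedUnder_le (g := fun x => Real.sin (Real.log x))
        (isBoundedUnder_of ⟨1, fun x => Real.abs_sin_le_one _⟩)
      simpa [ContinuousAt] using h2
    · exact (continuous_pow 2).continuousAt.mul
        (Real.continuous_sin.continuousAt.comp (Real.continuousAt_log hx))
  exact (isClosed_eq (continuous_apply 1) (h1.comp (continuous_apply 0))).inter
    (isClosed_eq (by fun_prop) (by fun_prop))

theorem seqE (θ : ℝ) (hθ : θ = 0 ∨ θ = 1 ∨ θ = -1) :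
    ∃ᶠ x in 𝓝[≠] (0:ℝ), ![x, θ * x ^ 2] ∈ EE := by
  obtain ⟨a, ha⟩ : ∃ a, Real.sin a = θ := by
    rcases hθ with h | h | h
    · exact ⟨0, by simp [h]⟩
    · exact ⟨Real.pi / 2, by simp [h]⟩
    · exact ⟨-(Real.pi / 2), by simp [h]⟩
  have t : Tendsto (fun n : ℕ => Real.exp (a - n * (2 * Real.pi))) atTop (𝓝[≠] 0) := by
    refine tendsto_nhdsWithin_iff.2 ⟨Real.tendsto_exp_atBot.comp ?_,
      Eventually.of_forall fun n => Real.exp_ne_zero _⟩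
    refine tendsto_atBot_add_const_left _ a (tendsto_neg_atTop_atBot.comp ?_)
    exact tendsto_natCast_atTop_atTop.atTop_mul_const (by positivity)
  refine t.frequently (Eventually.of_forall fun n => ?_).frequently
  simp only [EE, mem_ofPred_eq, Matrix.cons_val_one, Matrix.cons_val_zero, Real.log_exp,
    Real.sin_sub_nat_mul_two_pi, ha]
  refine ⟨by ring, ?_⟩
  rcases hθ with h | h | h <;> rw [h] <;> ring

theorem main {k : ℕ} (f : Fin k → MvPolynomial (Fin 2) ℝ)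
    (g : Fin k → Finset (MvPolynomial (Fin 2) ℝ)) (V : Set (Fin 2 → ℝ))
    (hV : V = ⋃ i : Fin k, {x : Fin 2 → ℝ | MvPolynomial.eval x (f i) = 0 ∧
      ∀ p ∈ g i, 0 < MvPolynomial.eval x p})
    (h1 : ∀ F : (Fin 2 → ℝ) → ℝ, ContDiff ℝ (6 : ℕ) F → (∀ x ∈ EE, F x = 0) →
          ∃ G : (Fin 2 → ℝ) → ℝ, ContDiff ℝ (6 : ℕ) G ∧ (∀ x ∈ V, G x = 0) ∧
            ∀ j : ℕ, j ≤ 6 → iteratedFDeriv ℝ j G 0 = iteratedFDeriv ℝ j F 0)
    (h2 : ∀ G : (Fin 2 → ℝ) → ℝ, ContDiff ℝ (6 : ℕ) G → (∀ x ∈ V, G x = 0) →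
          ∃ F : (Fin 2 → ℝ) → ℝ, ContDiff ℝ (6 : ℕ) F ∧ (∀ x ∈ EE, F x = 0) ∧
            ∀ j : ℕ, j ≤ 6 → iteratedFDeriv ℝ j F 0 = iteratedFDeriv ℝ j G 0) : False := by
  obtain ⟨G1, c1, v1, j1⟩ := h1 F1 cF1 (fun z hz => by rw [F1, hz.1]; ring)
  obtain ⟨G2, c2, v2, j2⟩ := h1 F2 cF2 (fun z hz => by rw [F2, hz.2]; ring)
  obtain ⟨d, hd, hd2, A, B, D⟩ := core V G1 G2 (c1.differentiable (by norm_num)) v1 v2
    (flat1 5 F1 G1 cF1 c1 j1) (flat0 6 F2 G2 cF2 c2 j2)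
  obtain ⟨a, ha, Ha⟩ := side' f g V hV 1 (by simp) d hd hd2 A B D
  obtain ⟨b, hb, Hb⟩ := side' f g V hV (-1) (by simp) d hd hd2 A B D
  obtain ⟨δ, hδ, P, P1, P2, P3⟩ := Ha b (by rcases hb with h | h | h <;> simp [h])
  obtain ⟨η, hη, Q, Q1, Q2, Q3⟩ := Hb a (by rcases ha with h | h | h <;> simp [h])
  obtain ⟨h, hc, h0, hp, hn, ho⟩ := two_sides δ η P Q P1 Q1 P2 Q2
  obtain ⟨θ, hθ, hθ2⟩ : ∃ θ : ℝ, (θ = 0 ∨ θ = 1 ∨ θ = -1) ∧ 1 ≤ |(θ - a) * (θ - b)| := by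
    rcases ha with rfl | rfl | rfl <;> rcases hb with rfl | rfl | rfl
    all_goals first
      | (refine ⟨0, Or.inl rfl, ?_⟩; norm_num; done)
      | (refine ⟨1, Or.inr (Or.inl rfl), ?_⟩; norm_num; done)
      | (refine ⟨-1, Or.inr (Or.inr rfl), ?_⟩; norm_num; done)
  set ρ := min d (min δ η) with hρ
  have hρ0 : 0 < ρ := by positivity
  have r1 : ρ ≤ d := min_le_left _ _
  have r2 : ρ ≤ δ := (min_le_right _ _).trans (min_le_left _ _)
  have r3 : ρ ≤ η := (min_le_right _ _).trans (min_le_right _ _)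
  let φ : ContDiffBump (0 : Fin 2 → ℝ) := ⟨ρ / 4, ρ / 2, by positivity, by linarith⟩
  set G : (Fin 2 → ℝ) → ℝ := fun z =>
    φ z * (z 0 ^ 2 * (z 1 - a * z 0 ^ 2) * (z 1 - b * z 0 ^ 2) - h (z 0)) with hG
  have cG : ContDiff ℝ (6 : ℕ) G := by
    rw [contDiff_iff_contDiffAt]
    intro z
    by_cases hz : ‖z‖ < ρ
    · have a1 := abs_lt.1 ((norm_le_pi_norm z 0).trans_lt hz)
      have a2 : ContDiffAt ℝ (6 : ℕ) h (z 0) :=
        hc.contDiffAt (Ioo_mem_nhds (by linarith [a1.1]) (by linarith [a1.2]))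
      have a3 : ContDiffAt ℝ (6 : ℕ) (fun w : Fin 2 → ℝ => h (w 0)) z :=
        ContDiffAt.comp (f := fun w : Fin 2 → ℝ => w 0) z a2
          (contDiff_apply ℝ ℝ (0 : Fin 2)).contDiffAt
      exact φ.contDiff.contDiffAt.mul (ContDiffAt.sub (by fun_prop) a3)
    · have a1 : z ∉ tsupport φ := by
        rw [φ.tsupport_eq, mem_closedBall_zero_iff]
        show ¬ ‖z‖ ≤ ρ / 2
        intro h; apply hz; linarith
      refine (contDiffAt_const (c := (0:ℝ))).congr_of_eventuallyEq ?_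
      filter_upwards [notMem_tsupport_iff_eventuallyEq.1 a1] with w hw
      simp only [hG, hw, Pi.zero_apply, zero_mul]
  have vG : ∀ z ∈ V, G z = 0 := by
    intro z hz
    by_cases hφ : φ z = 0
    · simp only [hG, hφ, zero_mul]
    have a0 : z ∈ Function.support φ := hφ
    rw [φ.support_eq, mem_ball_zero_iff] at a0
    have a0' : ‖z‖ < ρ / 2 := a0
    have a1 := abs_lt.1 ((norm_le_pi_norm z 0).trans_lt a0')
    have a2 : |z 1| < d := ((norm_le_pi_norm z 1).trans_lt a0').trans_le (by linarith)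
    have ez : z = ![z 0, z 1] := by funext i; fin_cases i <;> rfl
    simp only [hG]
    refine mul_eq_zero_of_right _ ?_
    rcases lt_trichotomy (z 0) 0 with h | h | h
    · rw [hn _ h, ← Q3 (-z 0) ⟨by linarith, by linarith [a1.1]⟩ (z 1) a2 (by simpa [← ez] using hz)]
      ring
    · simp [h, h0]
    · rw [hp _ h, ← P3 (z 0) ⟨h, by linarith [a1.2]⟩ (z 1) a2 (by simpa [← ez] using hz)]
      ring
  obtain ⟨F, cF, vF, jF⟩ := h2 G cG vG
  have o := flat0 6 G F cG cF jF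
  have t : Tendsto (fun x : ℝ => (![x, θ * x ^ 2] : Fin 2 → ℝ)) (𝓝[≠] 0) (𝓝 0) := by
    refine Tendsto.mono_left ?_ nhdsWithin_le_nhds
    have : Continuous fun x : ℝ => (![x, θ * x ^ 2] : Fin 2 → ℝ) := by fun_prop
    exact this.tendsto' 0 0 (by funext i; fin_cases i <;> simp)
  have e1 := t.eventually (o.def (c := 1 / 4) (by norm_num))
  have e2 := t.eventually φ.eventuallyEq_one
  have e3 := ho.def (c := 1 / 4) (by norm_num)
  have e4 : ∀ᶠ x in 𝓝[≠] (0:ℝ), |x| < 1 / 2 :=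
    mem_nhdsWithin_of_mem_nhds (continuous_abs.continuousAt.eventually_lt continuousAt_const
      (by norm_num))
  obtain ⟨x, hx, ⟨⟨b1, b2⟩, b3, b4⟩, b5⟩ :=
    ((seqE θ hθ).and_eventually (((e1.and e2).and (e3.and e4)).and self_mem_nhdsWithin)).exists
  have b6 : |θ * x ^ 2| ≤ 2 * x ^ 2 := by
    rw [abs_mul, abs_of_nonneg (sq_nonneg x)]
    refine mul_le_mul_of_nonneg_right ?_ (sq_nonneg x)
    rcases hθ with h | h | h <;> simp [h]
  have x6 : 0 < x ^ 6 := Even.pow_pos (by norm_num) b5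
  rw [vF _ hx, zero_sub, norm_neg, norm_pow, norm_norm, nrm2 b4 b6, ← abs_pow,
    abs_of_pos x6] at b1
  simp only [hG, b2, Pi.one_apply, one_mul, Matrix.cons_val_one, Matrix.cons_val_zero,
    Real.norm_eq_abs] at b1
  rw [Real.norm_eq_abs, Real.norm_eq_abs, abs_of_pos x6] at b3
  have e : x ^ 2 * (θ * x ^ 2 - a * x ^ 2) * (θ * x ^ 2 - b * x ^ 2) =
      (θ - a) * (θ - b) * x ^ 6 := by ring
  rw [e] at b1
  have b7 : |(θ - a) * (θ - b) * x ^ 6| ≤ |(θ - a) * (θ - b) * x ^ 6 - h x| + |h x| := by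
    have := abs_add_le ((θ - a) * (θ - b) * x ^ 6 - h x) (h x)
    rwa [sub_add_cancel] at this
  rw [abs_mul, abs_of_pos x6] at b7
  nlinarith

end Pool.Agent.H.MP_85663e_an
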